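import Pool.Agent.Helper82.Eq6

set_option autoImplicit false

namespace Pool.Agent.Results.MP_5e4080_gt.TwoPointsAllILtOne

open Set

/-- Euclidean space `E^n`. -/
abbrev E (n : ℕ) := EuclideanSpace ℝ (Fin n)

/-- A body: a compact set equal to the closure of its interior. -/
def IsBody {n : ℕ} (L : Set (E n)) : Prop := IsCompact L ∧ closure (interior L) = L

/-- The radial function of `L` seen from `p` (that is, of `L - p` at the origin):
`max {c ≥ 0 : p + c u ∈ L}`. -/
noncomputable def radial {n : ℕ} (L : Set (E n)) (p u : E n) : ℝ :=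
  sSup {c : ℝ | 0 ≤ c ∧ p + c • u ∈ L}

/-- `L - p` is a star body: `L` is compact, star-shaped with respect to `p`, and its radial
function about `p` is attained as a maximum, positive and continuous on the unit sphere. -/
def IsStarBodyAt {n : ℕ} (L : Set (E n)) (p : E n) : Prop :=
  IsCompact L ∧ StarConvex ℝ p L ∧
    (∀ u : E n, ‖u‖ = 1 →
      IsGreatest {c : ℝ | 0 ≤ c ∧ p + c • u ∈ L} (radial L p u) ∧ 0 < radial L p u) ∧
    ContinuousOn (radial L p) (Metric.sphere 0 1)

open Classical in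
/-- The `i`-chord function of `L` at `p`. -/
noncomputable def chordFn {n : ℕ} (i : ℝ) (L : Set (E n)) (p u : E n) : ℝ :=
  if i = 0 then radial L p u * radial L p (-u)
  else (1 / 2) * (radial L p u ^ i + radial L p (-u) ^ i)

/-- `p` is an `i`-equichordal point of `L` (with constant `a`). -/
def IsEquichordal {n : ℕ} (i : ℝ) (L : Set (E n)) (p : E n) (a : ℝ) : Prop :=
  p ∈ interior L ∧ IsStarBodyAt L p ∧ 0 < a ∧ ∀ u : E n, ‖u‖ = 1 → chordFn i L p u = a

open Pool.Agent.Helper82.Eq in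
theorem equi_aux {n : ℕ} {i B : ℝ} (hi0 : i ≠ 0) (hB : 0 < B) (g : ℝ → ℝ) (hg : ∀ x, 0 < g x)
    (hc : Continuous g) (hs : ∀ c, -1 ≤ c → c ≤ 1 → g c ^ i + g (-c) ^ i = 2 * B ^ i)
    {e : E n} (he : ‖e‖ = 1) (q : E n) : IsEquichordal i (Lset g e q) q (B ^ i) := by
  have hr : ∀ u : E n, ‖u‖ = 1 → radial (Lset g e q) q u = g (inner ℝ e u) := fun u hu =>
    radial_eq hg q hu
  refine ⟨Lset_center hg hc he q, ⟨Lset_compact hg hc he q, ?_, ?_, ?_⟩,
    Real.rpow_pos_of_pos hB i, ?_⟩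
  · rw [starConvex_iff_forall_pos (by exact interior_subset (Lset_center hg hc he q))]
    intro y hy a b ha hb hab
    have := Lset_star hg he q hy hb.le (by linarith)
    have e : a • q + b • y = q + b • (y - q) := by
      rw [show a = 1 - b by linarith, sub_smul, one_smul, smul_sub]
      abel
    rw [e]; exact this
  · intro u hu
    rw [hr u hu]
    refine ⟨⟨⟨(hg _).le, (mem_ray hg hu (hg _).le).mpr le_rfl⟩, ?_⟩, hg _⟩
    rintro c ⟨h1, h2⟩
    exact (mem_ray hg hu h1).mp h2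
  · have h1 : ContinuousOn (fun u : E n => g (inner ℝ e u)) (Metric.sphere 0 1) :=
      (hc.comp (by fun_prop : Continuous fun u : E n => inner ℝ e u)).continuousOn
    refine h1.congr fun u hu => ?_
    exact hr u (by simpa using hu)
  · intro u hu
    have h2 := cos_mem he hu
    unfold chordFn
    rw [if_neg hi0, hr u hu, hr (-u) (by rwa [norm_neg]), inner_neg_right, hs _ h2.1 h2.2]
    ring

/-- For every real `i < 1`, `i ≠ 0`, and every `n ≥ 2` there is a body in `E^n` with two distinct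
`i`-equichordal points (with equal constants). -/
theorem result (i : ℝ) (hi : i < 1) (hi0 : i ≠ 0) (n : ℕ) (hn : 2 ≤ n) :
    ∃ L : Set (E n), IsBody L ∧ ∃ p q : E n, ∃ a : ℝ, p ≠ q ∧
      IsEquichordal i L p a ∧ IsEquichordal i L q a := by
  obtain ⟨B, hP⟩ : ∃ B : ℝ, Pool.Agent.Helper82.Eq.Par i B := by
    rcases lt_or_gt_of_ne hi0 with h0 | h0
    · exact ⟨8, hi, hi0, le_rfl, fun h => absurd h (not_lt.mpr h0.le)⟩
    · refine ⟨8 / (1 - i), hi, hi0, ?_, fun _ => ?_⟩
      · rw [le_div_iff₀ (by linarith)]; nlinarith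
      · rw [div_mul_cancel₀ _ (by linarith)]
  have hB : 0 < B := by linarith [hP.hB]
  set e : E n := EuclideanSpace.single ⟨0, by omega⟩ 1 with he0
  have he : ‖e‖ = 1 := by rw [he0]; simp
  have hene : e ≠ 0 := by
    intro h; rw [h, norm_zero] at he; exact zero_ne_one he
  have hX := Pool.Agent.Helper82.Eq.Xb_pos hP
  have hXc := Pool.Agent.Helper82.Eq.Xb_cont hP
  have hq := equi_aux hi0 hB (Pool.Agent.Helper82.Eq.Xb hP) hX hXc
    (fun c h1 h2 => Pool.Agent.Helper82.Eq.Xb_sum hP h1 h2) he ((1/2 : ℝ) • e)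
  have hp := equi_aux hi0 hB (fun c => Pool.Agent.Helper82.Eq.Xb hP (-c)) (fun c => hX _)
    (hXc.comp continuous_neg)
    (fun c h1 h2 => Pool.Agent.Helper82.Eq.Xb_sum hP (by linarith) (by linarith)) he
    (-((1/2 : ℝ) • e))
  rw [← Pool.Agent.Helper82.Eq.key hP he] at hp
  refine ⟨Pool.Agent.Helper82.Eq.Lset (Pool.Agent.Helper82.Eq.Xb hP) e ((1/2 : ℝ) • e),
    ⟨Pool.Agent.Helper82.Eq.Lset_compact hX hXc he _,
      Pool.Agent.Helper82.Eq.Lset_body hX hXc he _⟩, -((1/2 : ℝ) • e), (1/2 : ℝ) • e, B ^ i, ?_,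
    hp, hq⟩
  intro h
  have h2 : (1/2 : ℝ) • e + (1/2 : ℝ) • e = 0 := by
    nth_rewrite 1 [← h]; exact neg_add_cancel _
  rw [← add_smul] at h2
  norm_num at h2
  exact hene h2

end Pool.Agent.Results.MP_5e4080_gt.TwoPointsAllILtOne
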